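import Mathlib
import Pool.Agent.K4H35.HL.Maj
import Pool.Agent.K4H35.UK.Final
import Pool.Agent.K4H54.PL.Main
import Pool.Agent.K4H1.PL.Clause2

/-!
# The majority law for Hodge classes on the powers of a variety

Let `Y` be a smooth projective variety. Call `Y` Lefschetz if it satisfies the Lefschetz standard
conjecture, for instance an abelian variety. How many of the Hodge classes on the powers of `Y` can
fail to be algebraic? For a given `Y` the Hodge classes on `Y ^ m` form a vector space whose dimension
`hodgeDim Y m` grows exponentially with `m`.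

1. **One counterexample spreads to a positive proportion** (any `Y`). If a Hodge class on `Y ^ n` is not
   algebraic then for all `m ≥ n` the space of the algebraic Hodge classes on `Y ^ m` has dimension at
   most `(1 - 1 / (2 * D ^ (n + 1))) * hodgeDim Y m`, where `D` is the total Betti number of `Y`.
2. **The proportions have a limit, which is `0` or `1 / k`** for an integer `k ≥ 1` (`Y` Lefschetz), and
   `k = 1` only if the Hodge conjecture holds for all powers of `Y`.
3. **The majority law** (`Y` Lefschetz). For every `ε > 0` there is a number `M`, depending only on `ε` and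
   on the total Betti number of `Y`, such that the Hodge conjecture holds for **all** powers of `Y` as
   soon as more than the proportion `1 / 2 + ε` of the Hodge classes on **one** power `Y ^ m`, `m ≥ M`, is
   algebraic. In particular the Hodge conjecture for all powers of all abelian varieties of dimension
   `g` holds if it is true, for each of them, for a proportion of `51` percent of the Hodge classes on the
   `M(g)`-th power. In part 4 no standard conjecture is assumed: the Hodge conjecture for all powers
   of `Y` follows from the Hodge conjecture for `Y ^ M`.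

The theorem is proved for every property `P` of the correspondences between the powers of `Y` (the
rational linear maps `H(Y ^ a) → H(Y ^ c)`) in place of `algebraic`, which is preserved by linear
combinations, compositions and exterior products (`IsClosed`) and which holds for some basic
correspondences: in part 1 the classes of the point, of the diagonal and of a point of `Y`, the unit class
and the form of Poincaré duality (`Planar`), in parts 2 and 3 the classes of the point, of the diagonal,
of the symmetry of `Y × Y`, the unit class, and a polarization form of `H(Y)` and its inverse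
(`ContainsForm`). For `P = algebraic` the last two are the content of the Lefschetz standard conjecture
for `Y` (known for curves, surfaces, abelian varieties, complete intersections; the symmetry in
`ContainsForm` acts without signs on the odd cohomology, it is the composition of the graph of the symmetry and
of the sign operators, which are algebraic under this conjecture). The constant `1 / 2` cannot be improved
in this generality, since there are groups with subgroups of index two.

`Cohomology` (the rational cohomology with the Hodge operator `z = p - q` and the unit class),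
`IsPolarizedHodge`, `IsPolarization`, `Cohomology.pow` (formula of Künneth) and `IsCorrespondence` (the
rational maps which commute with the Hodge operators, by Poincaré duality the Hodge classes on the
product) are defined in `Pool.Agent.K4H35.NT.Defs`; `exterior`, `IsClosed`, `ContainsForm`, `hodgeDim`
and `classDim` in `Pool.Agent.K4H35.HL.Defs`; `IsPoincare` and `Planar` in `Pool.Agent.K4H54.PL.Defs`.
-/

namespace Pool.Agent.K4H35.Retired.MajorityLefschetz

open Matrix Filter Topology Pool.Agent.K4H35.NT Pool.Agent.K4H35.HL Pool.Agent.K4H54.PL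

/-- All Hodge correspondences between powers of `Y` have the property `P`. -/
def ContainsAll (Y : Cohomology) (P : ∀ a c : ℕ, Matrix (Y.pow c).ι (Y.pow a).ι ℚ → Prop) : Prop :=
  ∀ (a c : ℕ) (F : Matrix (Y.pow c).ι (Y.pow a).ι ℚ), IsCorrespondence (Y.pow a) (Y.pow c) F →
    P a c F

/-- **The majority law for Hodge classes on the powers of a variety.** -/
theorem result :
    -- 1. one counterexample spreads to a positive proportion
    (∀ Y : Cohomology, IsPolarizedHodge Y →
      ∀ P : ∀ a c : ℕ, Matrix (Y.pow c).ι (Y.pow a).ι ℚ → Prop, IsClosed Y P →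
      ∀ (q : Matrix Y.ι Y.ι ℚ) (pt : Y.ι → ℚ), IsPoincare Y q pt → Planar Y P q pt →
      ∀ (n : ℕ) (F : Matrix (Y.pow n).ι (Y.pow 0).ι ℚ), IsCorrespondence (Y.pow 0) (Y.pow n) F →
      ¬ P 0 n F → ∀ m, n ≤ m →
        (classDim Y P m : ℝ) ≤ (1 - 1 / (2 * (Fintype.card Y.ι : ℝ) ^ (n + 1))) * hodgeDim Y m) ∧
    -- 2. the limit of the proportions
    (∀ Y : Cohomology, IsPolarizedHodge Y →
      ∀ P : ∀ a c : ℕ, Matrix (Y.pow c).ι (Y.pow a).ι ℚ → Prop, IsClosed Y P →
      ∀ Q : Matrix Y.ι Y.ι ℚ, IsPolarization Y Q → ContainsForm Y P Q →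
        Tendsto (fun m => (classDim Y P m : ℝ) / hodgeDim Y m) atTop (𝓝 0) ∨
        ∃ k : ℕ, 1 ≤ k ∧
          Tendsto (fun m => (classDim Y P m : ℝ) / hodgeDim Y m) atTop (𝓝 (1 / k)) ∧
          (k = 1 → ContainsAll Y P)) ∧
    -- 3. the majority law
    (∀ ε : ℝ, 0 < ε → ∃ M : ℕ → ℕ → ℕ, ∀ (b d : ℕ) (Y : Cohomology), IsPolarizedHodge Y →
      Fintype.card Y.ι ≤ b →
      (∀ (k : ℤ) (x : Y.ι → ℂ), x ≠ 0 → Y.z *ᵥ x = (k : ℂ) • x → |k| ≤ d) →
      ∀ P : ∀ a c : ℕ, Matrix (Y.pow c).ι (Y.pow a).ι ℚ → Prop, IsClosed Y P →
      ∀ Q : Matrix Y.ι Y.ι ℚ, IsPolarization Y Q → ContainsForm Y P Q →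
      ∀ m, M b d ≤ m → (1 / 2 + ε) * hodgeDim Y m < classDim Y P m → ContainsAll Y P) ∧
    -- 4. uniform generation
    (∃ K : ℕ → ℕ → ℕ, ∀ (b d : ℕ) (Y : Cohomology), IsPolarizedHodge Y → Fintype.card Y.ι ≤ b →
      (∀ (k : ℤ) (x : Y.ι → ℂ), x ≠ 0 → Y.z *ᵥ x = (k : ℂ) • x → |k| ≤ d) →
      ∀ P : ∀ a c : ℕ, Matrix (Y.pow c).ι (Y.pow a).ι ℚ → Prop, IsClosed Y P →
      (∀ (a c : ℕ) (F : Matrix (Y.pow c).ι (Y.pow a).ι ℚ), a + c ≤ K b d →
        IsCorrespondence (Y.pow a) (Y.pow c) F → P a c F) → ContainsAll Y P) := by
  refine ⟨?_, ?_, ?_, ?_⟩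
  · intro Y hY P hP q pt hq hc n F hF hFP m hm
    exact clause1 Y hY P hP q pt hq hc n F hF hFP m hm
  · intro Y hY P hP Q hQ hc
    rcases Pool.Agent.K4H1.PL.clause2 hY hP hQ hc with h | ⟨N, h1, h2, h3⟩
    · exact Or.inl h
    · exact Or.inr ⟨N, h1, h2, h3⟩
  · intro ε hε
    obtain ⟨M, hM⟩ := majority hε
    exact ⟨M, fun b d Y hY hb hd P hP Q hQ hc m hm h => hM b d Y hY hb hd P hP Q hQ hc m hm h⟩
  · obtain ⟨K, hK⟩ := Pool.Agent.K4H35.UK.uniform
    refine ⟨K, fun b d Y hY hb hd P hP hbase => hK b d Y hY hb hd P ?_ hbase⟩
    exact ⟨fun {a c F G} => hP.add a c F G, fun {a c} r {F} => hP.smul a c r F,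
      fun {a b c F G} => hP.comp a b c F G, fun {a c a' c' F G} => hP.prod a c a' c' F G⟩

end Pool.Agent.K4H35.Retired.MajorityLefschetz
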