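import Mathlib
import Pool.Agent.K4H35.QH.Hodge

/-!
# The quantization law for the algebraicity of absolute Hodge classes

**Theorem.** Let `Y` be a smooth projective complex variety. The proportion of the absolute Hodge classes
on `Y ^ m` which are algebraic, counted modulo numerical equivalence, has a limit `L` for `m → ∞`, and

* `L` is one of the numbers `0, 1, 1 / 2, 1 / 3, 1 / 4, ...`;
* `L = 1` if and only if **all** absolute Hodge classes on **all** powers of `Y` are algebraic;
* if `L` is not zero, then numerical and homological equivalence agree for the algebraic classes on
  **all** powers of `Y` (standard conjecture D).

(The numerator is the dimension of the space of the algebraic classes on `Y ^ m` modulo the numerically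
trivial ones, the denominator the dimension of the space of all absolute Hodge classes; classes of all
codimensions.) No conjecture is assumed. So the answer to the question for all powers of `Y` is
governed by one number which can take only the values `0` and `1 / k`: for instance, if the lower limit of
the proportions is larger than `1 / 2`, then all absolute Hodge classes on all powers of `Y` are
algebraic, and if one algebraic class on one power of `Y` is numerically but not homologically
trivial, then the proportion tends to zero.

The theorem is proved for every property `P` of the correspondences between the powers of `Y` (the
rational linear maps `H(Y ^ a) → H(Y ^ c)`) in place of `algebraic`, which is preserved by linear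
combinations, compositions and exterior products (`IsClosed`), which holds for the classes which exist
on every variety (`ContainsStandard`): the point, the unit class, the class of a point, the diagonal of
`Y × Y` (as the identity of `H(Y)`, as the form of Poincaré duality, and as a class in `H(Y × Y)`) and
the graph of the symmetry of `Y × Y`; and such that the form of Poincaré duality is graded symmetric
and the classes with the property `P` are of even degree (`IsGraded`; this is so for all Hodge classes).

Proof (idea of helper10): let `B` be the classes in `P` and `H` the absolute Hodge classes. If one class in
`B` is numerically trivial, then its products with the classes in `B`, in all positions, show by a count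
of the words in which they are linearly independent that almost all classes in `B` are numerically
trivial: `L = 0`. Otherwise the algebras of the correspondences in `P` are semisimple (the argument of
Jannsen, with the trace of the signed correspondences), every class `g` in `H` generates under the
correspondences in `P` a system of classes which is given by an idempotent `e`, and the count of words
for the operators `e` at disjoint places shows that the dimension of this system on `Y ^ m`, divided by
the dimension of `B`, tends to the rank of `e`, an integer `≥ 1`. So either `H` is a finite direct sum of
such systems and `L = 1 / K`, where `K` is a sum of ranks, or it contains arbitrarily large ones and `L = 0`.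

Absolute Hodge classes: for every automorphism `σ` of the field of complex numbers (all embeddings),
`Y.conj σ` is the matrix of the conjugation `α ↦ α ^ σ` of algebraic de Rham classes from `Y` to `Y ^ σ`, in
rational bases of the cohomology of `Y` and of `Y ^ σ`; on `H ^ j` it is normalised by the factor `s ^ j`,
`s ^ 2 = σ(2πi) / (2πi)`. On `H ^ (2 p)` this means that the rational structures are `H ^ (2 p)(Y, ℚ(p))` and
`H ^ (2 p)(Y ^ σ, ℚ(p))`. A class is absolute Hodge if it is a Hodge class and all its conjugates are
rational; the Künneth components of such a class are absolute Hodge again, hence the degrees can be
disregarded. With this normalisation the form of Poincaré duality of `Y` is the pull-back of the one of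
`Y ^ σ` (the algebraic trace map is `(2πi) ^ (-dim Y)` times the integral), and the class of a point is
mapped to the class of a point (`IsPoincare`).

`Cohomology`, `IsPolarizedHodge` (in particular: there is an absolute Hodge polarization), `pow`
(formula of Künneth), `IsAbsoluteHodge` and `IsCorrespondence` (the absolute Hodge maps, by Poincaré
duality the absolute Hodge classes on the product) are defined in `Pool.Agent.K4H35.AH.Defs`; `exterior`,
`IsClosed`, `IsPoincare`, `ContainsStandard`, `absDim` and `classDim` in `Pool.Agent.K4H35.AHL.Defs`;
`IsGraded`, `numTriv` and `numDim` in `Pool.Agent.K4H35.QH.AbsDefs`.
-/

namespace Pool.Agent.K4H35.Retired.QuantizationLawPoint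

open Matrix Filter Topology Pool.Agent.K4H35.AH Pool.Agent.K4H35.AHL Pool.Agent.K4H35.QA

/-- All absolute Hodge correspondences between powers of `Y` have the property `P`. -/
def ContainsAll (Y : Cohomology) (P : ∀ a c : ℕ, Matrix (Y.pow c).ι (Y.pow a).ι ℚ → Prop) : Prop :=
  ∀ (a c : ℕ) (F : Matrix (Y.pow c).ι (Y.pow a).ι ℚ), IsCorrespondence (Y.pow a) (Y.pow c) F →
    P a c F

/-- **The quantization law for absolute Hodge classes.** -/
theorem result (Y : Cohomology) (hY : IsPolarizedHodge Y)
    (P : ∀ a c : ℕ, Matrix (Y.pow c).ι (Y.pow a).ι ℚ → Prop) (hP : IsClosed Y P)
    (q : Matrix Y.ι Y.ι ℚ) (pt : Y.ι → ℚ) (deg : Y.ι → ℕ) (hq : IsPoincare Y q pt deg)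
    (hc : ContainsStandard Y P q pt deg) (hg : IsGraded Y P q deg) :
    ∃ L : ℝ, Tendsto (fun m => (numDim Y P m : ℝ) / absDim Y m) atTop (𝓝 L) ∧
      (L = 0 ∨ ∃ k : ℕ, 1 ≤ k ∧ L = 1 / k) ∧ (L = 1 ↔ ContainsAll Y P) ∧
      (L ≠ 0 → ∀ m, numTriv Y P m = ⊥) :=
  limit hY hP hq hc hg

end Pool.Agent.K4H35.Retired.QuantizationLawPoint
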